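import Pool.Agent.H82.EV.RenA

/-! # [H82 EV RENEW] The renewal theorem for the model probabilities (barrier 0) -/

namespace Pool.Agent.H82.EV

open Pool.Agent.H12.EV Filter

/-- small nonzero combinations of `log 3` and `log (12/25)` -/
private lemma irr (δ : ℝ) (hδ : 0 < δ) : ∃ (a b : ℕ) (s : ℝ), s ≠ 0 ∧ |s| < δ ∧
    Real.exp s = 3 ^ a * (12 / 25) ^ b := by
  have hl : 0 < Real.log (25 / 12) := Real.log_pos (by norm_num)
  have hl3 : 0 < Real.log 3 := Real.log_pos (by norm_num)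
  obtain ⟨ξ, hξ⟩ : ∃ ξ : ℝ, ξ = Real.log 3 / Real.log (25 / 12) := ⟨_, rfl⟩
  have hξ0 : 0 < ξ := by rw [hξ]; positivity
  obtain ⟨n, hn⟩ := exists_nat_gt (Real.log (25 / 12) / δ)
  have hn0 : 0 < n + 1 := Nat.succ_pos n
  obtain ⟨j, k, hk0, _, hjk⟩ := Real.exists_int_int_abs_mul_sub_le ξ hn0
  have hk0' : (0 : ℝ) < k := by exact_mod_cast hk0
  have hn1 : (0 : ℝ) < n := by
    have : 0 < Real.log (25 / 12) / δ := by positivity
    linarith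
  have hsm : 1 / (((n + 1 : ℕ) : ℝ) + 1) < 1 := by
    rw [div_lt_one (by positivity)]
    push_cast
    linarith
  have hj0 : 0 ≤ j := by
    have h1 : -(1 : ℝ) < (k : ℝ) * ξ - 1 := by
      have : 0 < (k : ℝ) * ξ := by positivity
      linarith
    have h2 := (abs_le.1 hjk).2
    have h3 : (-1 : ℝ) < j := by linarith
    have h4 : (-1 : ℤ) < j := by exact_mod_cast h3
    omega
  obtain ⟨a, rfl⟩ := Int.eq_ofNat_of_zero_le hk0.le
  obtain ⟨b, rfl⟩ := Int.eq_ofNat_of_zero_le hj0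
  have ha0 : 0 < a := by exact_mod_cast hk0
  refine ⟨a, b, a * Real.log 3 - b * Real.log (25 / 12), ?_, ?_, ?_⟩
  · intro h0
    have h1 : Real.log (3 ^ a) = Real.log ((25 / 12) ^ b) := by
      rw [Real.log_pow, Real.log_pow]
      linarith
    have h2 : (3 : ℝ) ^ a = (25 / 12) ^ b :=
      Real.log_injOn_pos (Set.mem_Ioi.2 (by positivity)) (Set.mem_Ioi.2 (by positivity)) h1
    have h3 : (3 : ℝ) ^ a * 12 ^ b = 25 ^ b := by
      rw [h2, ← mul_pow]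
      norm_num
    have h4 : 3 ^ a * 12 ^ b = 25 ^ b := by exact_mod_cast h3
    have h5 : 3 ∣ 25 ^ b := by
      rw [← h4]
      exact dvd_mul_of_dvd_left (dvd_pow_self 3 ha0.ne') _
    have h6 : 3 ∣ 25 := Nat.Prime.dvd_of_dvd_pow (by norm_num) h5
    omega
  · have h1 : (a : ℝ) * Real.log 3 - b * Real.log (25 / 12) = Real.log (25 / 12) * (((a : ℤ) : ℝ) * ξ - ((b : ℤ) : ℝ)) := by
      rw [hξ]
      push_cast
      field_simp
    rw [h1, abs_mul, abs_of_pos hl]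
    have h2 : Real.log (25 / 12) * |((a : ℤ) : ℝ) * ξ - ((b : ℤ) : ℝ)| ≤ Real.log (25 / 12) * (1 / (((n + 1 : ℕ) : ℝ) + 1)) :=
      mul_le_mul_of_nonneg_left hjk hl.le
    refine h2.trans_lt ?_
    rw [mul_one_div, div_lt_iff₀ (by positivity)]
    have h3 := (div_lt_iff₀ hδ).1 hn
    push_cast
    nlinarith
  · have h1 : (a : ℝ) * Real.log 3 - b * Real.log (25 / 12) = Real.log (3 ^ a * (12 / 25) ^ b) := by
      rw [Real.log_mul (by positivity) (by positivity), Real.log_pow, Real.log_pow]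
      have : Real.log (12 / 25) = - Real.log (25 / 12) := by
        rw [← Real.log_inv]
        norm_num
      rw [this]
      ring
    rw [h1, Real.exp_log (by positivity)]

/-- aligning two points by multiples of a small step -/
private lemma align {s δ D : ℝ} (hs : s ≠ 0) (hsδ : |s| < δ) {J : ℕ} (hJ : D / |s| + 1 ≤ J) {t₁ t₂ : ℝ} (ht : |t₁ - t₂| ≤ D) :
    ∃ j₁ j₂ : ℕ, j₁ ≤ J ∧ j₂ ≤ J ∧ t₂ + j₂ * s ≤ t₁ + j₁ * s ∧ t₁ + j₁ * s ≤ t₂ + j₂ * s + δ := by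
  have hs0 : 0 < |s| := abs_pos.2 hs
  -- `x ≥ 0`, `x ≤ D`: a natural `j` with `x ≤ j |s| < x + |s|`
  have hceil : ∀ x : ℝ, 0 ≤ x → x ≤ D → ∃ j : ℕ, j ≤ J ∧ x ≤ j * |s| ∧ j * |s| ≤ x + |s| := by
    intro x hx0 hxD
    refine ⟨⌈x / |s|⌉₊, ?_, ?_, ?_⟩
    · have h1 := Nat.ceil_lt_add_one (show 0 ≤ x / |s| by positivity)
      have h2 : x / |s| ≤ D / |s| := div_le_div_of_nonneg_right hxD hs0.le
      have h3 : ((⌈x / |s|⌉₊ : ℕ) : ℝ) < J := by linarith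
      exact (by exact_mod_cast h3 : ⌈x / |s|⌉₊ < J).le
    · have h1 := Nat.le_ceil (x / |s|)
      rwa [div_le_iff₀ hs0] at h1
    · have h1 := Nat.ceil_lt_add_one (show 0 ≤ x / |s| by positivity)
      have h2 : ((⌈x / |s|⌉₊ : ℕ) : ℝ) * |s| ≤ (x / |s| + 1) * |s| := mul_le_mul_of_nonneg_right h1.le hs0.le
      have h3 : (x / |s| + 1) * |s| = x + |s| := by field_simp
      rwa [h3] at h2
  -- `x ≥ 0`, `x ≤ D`: a natural `j` with `x - |s| ≤ j |s| ≤ x`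
  have hfloor : ∀ x : ℝ, 0 ≤ x → x ≤ D → ∃ j : ℕ, j ≤ J ∧ x - |s| ≤ j * |s| ∧ j * |s| ≤ x := by
    intro x hx0 hxD
    refine ⟨⌊x / |s|⌋₊, ?_, ?_, ?_⟩
    · have h1 := Nat.floor_le (show 0 ≤ x / |s| by positivity)
      have h2 : x / |s| ≤ D / |s| := div_le_div_of_nonneg_right hxD hs0.le
      have h3 : ((⌊x / |s|⌋₊ : ℕ) : ℝ) ≤ J := by linarith
      exact_mod_cast h3
    · have h1 := Nat.lt_floor_add_one (x / |s|)
      have h2 : x / |s| * |s| ≤ (((⌊x / |s|⌋₊ : ℕ) : ℝ) + 1) * |s| := mul_le_mul_of_nonneg_right h1.le hs0.le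
      have h3 : x / |s| * |s| = x := by field_simp
      rw [h3] at h2
      linarith
    · have h1 := Nat.floor_le (show 0 ≤ x / |s| by positivity)
      have h2 : ((⌊x / |s|⌋₊ : ℕ) : ℝ) * |s| ≤ x / |s| * |s| := mul_le_mul_of_nonneg_right h1 hs0.le
      have h3 : x / |s| * |s| = x := by field_simp
      rwa [h3] at h2
  have hD : 0 ≤ D := (abs_nonneg _).trans ht
  have hJ0 : 0 ≤ J := Nat.zero_le _
  obtain ⟨ht1, ht2⟩ := abs_le.1 ht
  rcases lt_or_gt_of_ne hs with hneg | hpos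
  · have ha : |s| = - s := abs_of_neg hneg
    rcases le_total t₁ t₂ with h12 | h12
    · -- move t₂ down
      obtain ⟨j, hj, h1, h2⟩ := hceil (t₂ - t₁) (by linarith) (by linarith)
      refine ⟨0, j, hJ0, hj, ?_, ?_⟩
      · push_cast
        rw [ha] at h1
        linarith
      · push_cast
        rw [ha] at h2 hsδ
        linarith
    · obtain ⟨j, hj, h1, h2⟩ := hfloor (t₁ - t₂) (by linarith) (by linarith)
      refine ⟨j, 0, hj, hJ0, ?_, ?_⟩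
      · push_cast
        rw [ha] at h2
        linarith
      · push_cast
        rw [ha] at h1 hsδ
        linarith
  · have ha : |s| = s := abs_of_pos hpos
    rcases le_total t₁ t₂ with h12 | h12
    · obtain ⟨j, hj, h1, h2⟩ := hceil (t₂ - t₁) (by linarith) (by linarith)
      refine ⟨j, 0, hj, hJ0, ?_, ?_⟩
      · push_cast
        rw [ha] at h1
        linarith
      · push_cast
        rw [ha] at h2 hsδ
        linarith
    · obtain ⟨j, hj, h1, h2⟩ := hfloor (t₁ - t₂) (by linarith) (by linarith)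
      refine ⟨0, j, hJ0, hj, ?_, ?_⟩
      · push_cast
        rw [ha] at h2
        linarith
      · push_cast
        rw [ha] at h1 hsδ
        linarith

private lemma op0 (f : ℕ → ℝ → ℝ → ℝ) (L : ℝ) : Op f 0 L 0 = (f 0 (2 * L) 0 + f 3 (2 * L) 0) / 2 := by
  unfold Op
  rw [if_pos rfl, mul_zero]

private lemma op1 (f : ℕ → ℝ → ℝ → ℝ) (L : ℝ) : Op f 1 L 0 = f 0 (L / 5) 0 := by
  unfold Op
  rw [if_neg (by norm_num), if_pos rfl, zero_div]

private lemma op2 (f : ℕ → ℝ → ℝ → ℝ) (L : ℝ) : Op f 2 L 0 = (f 1 (2 * L) 0 + f 4 (2 * L) 0) / 2 := by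
  unfold Op
  rw [if_neg (by norm_num), if_neg (by norm_num), if_pos rfl, mul_zero]

private lemma op3 (f : ℕ → ℝ → ℝ → ℝ) (L : ℝ) : Op f 3 L 0 = (f 1 (3 * L) 0 + f 3 (3 * L) 0 + f 5 (3 * L) 0) / 3 := by
  unfold Op
  rw [if_neg (by norm_num), if_neg (by norm_num), if_neg (by norm_num), if_pos rfl, mul_zero]

private lemma op4 (f : ℕ → ℝ → ℝ → ℝ) (L : ℝ) : Op f 4 L 0 = (f 2 (2 * L) 0 + f 5 (2 * L) 0) / 2 := by
  unfold Op
  rw [if_neg (by norm_num), if_neg (by norm_num), if_neg (by norm_num), if_neg (by norm_num), if_pos rfl, mul_zero]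

private lemma op5 (f : ℕ → ℝ → ℝ → ℝ) (L : ℝ) : Op f 5 L 0 = f 2 (L / 5) 0 := by
  unfold Op
  rw [if_neg (by norm_num), if_neg (by norm_num), if_neg (by norm_num), if_neg (by norm_num), if_neg (by norm_num),
    zero_div]

private lemma harm_of {θ : ℝ} {v : ℕ → ℝ} (h : Par θ v) {Z : ℝ} (hZ : 1 ≤ Z) (α β : ℝ)
    (hnn : ∀ r, r < 6 → ∀ L, Z / 5 ≤ L → 0 ≤ α * F r L 0 + β * (v r * L ^ (-θ))) :
    Harm Z (fun r L => α * F r L 0 + β * (v r * L ^ (-θ))) where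
  nn := hnn
  e0 := by
    intro L hL
    have h1 := F_step (r := 0) (show 1 < L by linarith) (show (0 : ℝ) ≤ 1 by norm_num)
    have h2 := Op_v h (r := 0) (by norm_num) (show 0 < L by linarith) (R := 0)
    rw [op0] at h1 h2
    rw [h1, ← h2]
    ring
  e1 := by
    intro L hL
    have h1 := F_step (r := 1) (show 1 < L by linarith) (show (0 : ℝ) ≤ 1 by norm_num)
    have h2 := Op_v h (r := 1) (by norm_num) (show 0 < L by linarith) (R := 0)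
    rw [op1] at h1 h2
    rw [h1, ← h2]
  e2 := by
    intro L hL
    have h1 := F_step (r := 2) (show 1 < L by linarith) (show (0 : ℝ) ≤ 1 by norm_num)
    have h2 := Op_v h (r := 2) (by norm_num) (show 0 < L by linarith) (R := 0)
    rw [op2] at h1 h2
    rw [h1, ← h2]
    ring
  e3 := by
    intro L hL
    have h1 := F_step (r := 3) (show 1 < L by linarith) (show (0 : ℝ) ≤ 1 by norm_num)
    have h2 := Op_v h (r := 3) (by norm_num) (show 0 < L by linarith) (R := 0)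
    rw [op3] at h1 h2
    rw [h1, ← h2]
    ring
  e4 := by
    intro L hL
    have h1 := F_step (r := 4) (show 1 < L by linarith) (show (0 : ℝ) ≤ 1 by norm_num)
    have h2 := Op_v h (r := 4) (by norm_num) (show 0 < L by linarith) (R := 0)
    rw [op4] at h1 h2
    rw [h1, ← h2]
    ring
  e5 := by
    intro L hL
    have h1 := F_step (r := 5) (show 1 < L by linarith) (show (0 : ℝ) ≤ 1 by norm_num)
    have h2 := Op_v h (r := 5) (by norm_num) (show 0 < L by linarith) (R := 0)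
    rw [op5] at h1 h2
    rw [h1, ← h2]

private lemma pw {θ R L La : ℝ} (h0 : 0 ≤ θ) (h3 : θ ≤ 3) (hR : 1 ≤ R) (hL : 0 < L) (hLa : 0 < La) (h : La ≤ R * L) :
    L ^ (-θ) ≤ R ^ 3 * La ^ (-θ) := by
  have hR0 : 0 < R := by linarith
  have h1 : (R * L) ^ (-θ) ≤ La ^ (-θ) := Real.rpow_le_rpow_of_nonpos hLa h (by linarith)
  rw [Real.mul_rpow hR0.le hL.le] at h1
  have h2 : L ^ (-θ) = R ^ θ * (R ^ (-θ) * L ^ (-θ)) := by
    rw [← mul_assoc, ← Real.rpow_add hR0, add_neg_cancel, Real.rpow_zero, one_mul]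
  have h4 : R ^ θ ≤ R ^ 3 := by
    have := Real.rpow_le_rpow_of_exponent_le hR h3
    have e : R ^ (3 : ℝ) = R ^ 3 := by
      rw [← Real.rpow_natCast]
      norm_num
    rwa [e] at this
  have h5 : 0 ≤ La ^ (-θ) := Real.rpow_nonneg hLa.le _
  have h6 : 0 ≤ R ^ θ := Real.rpow_nonneg hR0.le _
  rw [h2]
  calc R ^ θ * (R ^ (-θ) * L ^ (-θ)) ≤ R ^ θ * La ^ (-θ) := mul_le_mul_of_nonneg_left h1 h6
    _ ≤ R ^ 3 * La ^ (-θ) := mul_le_mul_of_nonneg_right h4 h5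

/-- **The renewal theorem.** -/
theorem renewal {θ : ℝ} {v : ℕ → ℝ} (h : Par θ v) : ∃ c : ℝ, 0 < c ∧ ∀ r : ℕ, r < 6 →
    Tendsto (fun L : ℝ => F r L 0 * L ^ θ) atTop (nhds (c * v r)) := by
  have hθ0 : 0 < θ := by linarith [h.hθ1]
  have hθ3 : θ ≤ 3 := h.hθ3.le
  -- bounds of v
  obtain ⟨a₀, ha₀, hva⟩ : ∃ a : ℝ, 0 < a ∧ ∀ r, r < 6 → a ≤ v r := by
    obtain ⟨x, hx, hmin⟩ := Finset.exists_min_image (Finset.range 6) v ⟨0, Finset.mem_range.2 (by norm_num)⟩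
    exact ⟨v x, h.vpos x (Finset.mem_range.1 hx), fun r hr => hmin r (Finset.mem_range.2 hr)⟩
  obtain ⟨b₀, hb₀, hvb⟩ : ∃ b : ℝ, 0 < b ∧ ∀ r, r < 6 → v r ≤ b := by
    obtain ⟨x, hx, hmax⟩ := Finset.exists_max_image (Finset.range 6) v ⟨0, Finset.mem_range.2 (by norm_num)⟩
    exact ⟨v x, h.vpos x (Finset.mem_range.1 hx), fun r hr => hmax r (Finset.mem_range.2 hr)⟩
  -- rough bounds
  have hone : ∀ r, r < 6 → ∀ L : ℝ, 1 / 5 ≤ L → L ≤ 5 * (1 / 5) → F r L 0 = 1 := fun r _ L _ hL =>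
    F_one (by linarith) (by norm_num)
  obtain ⟨M₀, hM₀, hFM⟩ : ∃ M₀ : ℝ, 0 ≤ M₀ ∧ ∀ r, r < 6 → ∀ L, 1 / 5 ≤ L → F r L 0 ≤ M₀ * (v r * L ^ (-θ)) := by
    refine ⟨1 / a₀, by positivity, upper h le_rfl (by positivity) ?_⟩
    intro r hr L hL1 hL2
    rw [hone r hr L hL1 hL2]
    have h1 : 1 ≤ L ^ (-θ) := Real.one_le_rpow_of_pos_of_le_one_of_nonpos (by linarith) (by linarith) (by linarith)
    have h2 := hva r hr
    rw [one_div_mul_eq_div, le_div_iff₀ ha₀, one_mul]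
    calc a₀ ≤ v r := h2
      _ ≤ v r * L ^ (-θ) := le_mul_of_one_le_right (h.vpos r hr).le h1
  obtain ⟨m₀, hm₀, hFm⟩ : ∃ m₀ : ℝ, 0 < m₀ ∧ ∀ r, r < 6 → ∀ L, 1 / 5 ≤ L → m₀ * (v r * L ^ (-θ)) ≤ F r L 0 := by
    have hB : 0 < (1 / 5 : ℝ) ^ (-θ) := Real.rpow_pos_of_pos (by norm_num) _
    refine ⟨1 / (b₀ * (1 / 5 : ℝ) ^ (-θ)), by positivity, lower h le_rfl (by positivity) ?_⟩
    intro r hr L hL1 hL2
    rw [hone r hr L hL1 hL2, one_div_mul_eq_div, div_le_one (by positivity)]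
    have h1 : L ^ (-θ) ≤ (1 / 5 : ℝ) ^ (-θ) := Real.rpow_le_rpow_of_nonpos (by norm_num) hL1 (by linarith)
    have h2 := hvb r hr
    exact mul_le_mul h2 h1 (Real.rpow_nonneg (by linarith) _) hb₀.le
  have hVpos : ∀ r, r < 6 → ∀ L : ℝ, 0 < L → 0 < v r * L ^ (-θ) := fun r hr L hL =>
    mul_pos (h.vpos r hr) (Real.rpow_pos_of_pos hL _)
  -- the extreme values
  obtain ⟨P, hP⟩ : ∃ P : Set ℝ, P = {a : ℝ | 0 ≤ a ∧ ∃ X : ℝ, 1 / 5 ≤ X ∧ ∀ r, r < 6 → ∀ L, X ≤ L →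
    F r L 0 ≤ a * (v r * L ^ (-θ))} := ⟨_, rfl⟩
  obtain ⟨Q, hQ⟩ : ∃ Q : Set ℝ, Q = {a : ℝ | 0 ≤ a ∧ ∃ X : ℝ, 1 / 5 ≤ X ∧ ∀ r, r < 6 → ∀ L, X ≤ L →
    a * (v r * L ^ (-θ)) ≤ F r L 0} := ⟨_, rfl⟩
  have hP0 : M₀ ∈ P := by rw [hP]; exact ⟨hM₀, 1 / 5, le_rfl, hFM⟩
  have hQ0 : m₀ ∈ Q := by rw [hQ]; exact ⟨hm₀.le, 1 / 5, le_rfl, hFm⟩
  have hPb : BddBelow P := ⟨0, fun a ha => by rw [hP] at ha; exact ha.1⟩
  have hQb : BddAbove Q := by
    refine ⟨M₀, fun a ha => ?_⟩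
    rw [hQ] at ha
    obtain ⟨_, X, hX, hf⟩ := ha
    have h1 := hf 0 (by norm_num) X le_rfl
    have h2 := hFM 0 (by norm_num) X hX
    have h3 := hVpos 0 (by norm_num) X (by linarith)
    exact le_of_mul_le_mul_right (h1.trans h2) h3
  obtain ⟨M, hM⟩ : ∃ M : ℝ, M = sInf P := ⟨_, rfl⟩
  obtain ⟨m, hm⟩ : ∃ m : ℝ, m = sSup Q := ⟨_, rfl⟩
  have hmm₀ : m₀ ≤ m := by rw [hm]; exact le_csSup hQb hQ0
  have hmpos : 0 < m := lt_of_lt_of_le hm₀ hmm₀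
  have hM0 : 0 ≤ M := by
    rw [hM]
    exact le_csInf ⟨M₀, hP0⟩ (fun a ha => by rw [hP] at ha; exact ha.1)
  have F1 : ∀ ε : ℝ, 0 < ε → ∃ X : ℝ, 1 / 5 ≤ X ∧ ∀ r, r < 6 → ∀ L, X ≤ L → F r L 0 ≤ (M + ε) * (v r * L ^ (-θ)) := by
    intro ε hε
    obtain ⟨a, ha, haM⟩ := exists_lt_of_csInf_lt ⟨M₀, hP0⟩ (show sInf P < M + ε by rw [← hM]; linarith)
    rw [hP] at ha
    obtain ⟨_, X, hX, hf⟩ := ha
    refine ⟨X, hX, fun r hr L hL => (hf r hr L hL).trans ?_⟩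
    exact mul_le_mul_of_nonneg_right haM.le (hVpos r hr L (by linarith)).le
  have F3 : ∀ ε : ℝ, 0 < ε → ∃ X : ℝ, 1 / 5 ≤ X ∧ ∀ r, r < 6 → ∀ L, X ≤ L → (m - ε) * (v r * L ^ (-θ)) ≤ F r L 0 := by
    intro ε hε
    obtain ⟨a, ha, haM⟩ := exists_lt_of_lt_csSup ⟨m₀, hQ0⟩ (show m - ε < sSup Q by rw [← hm]; linarith)
    rw [hQ] at ha
    obtain ⟨_, X, hX, hf⟩ := ha
    refine ⟨X, hX, fun r hr L hL => le_trans ?_ (hf r hr L hL)⟩
    exact mul_le_mul_of_nonneg_right haM.le (hVpos r hr L (by linarith)).le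
  have F2 : ∀ ε : ℝ, 0 < ε → ∀ X : ℝ, 1 / 5 ≤ X → ∃ r, r < 6 ∧ ∃ L, X ≤ L ∧ L ≤ 5 * X ∧
      (M - ε) * (v r * L ^ (-θ)) < F r L 0 := by
    intro ε hε X hX
    by_contra hcon
    push Not at hcon
    have h1 : 0 ≤ M - ε := by
      by_contra hneg
      push Not at hneg
      have h2 := hcon 0 (by norm_num) X le_rfl (by linarith)
      have h3 := F_nonneg 0 X 0
      have h4 := mul_neg_of_neg_of_pos hneg (hVpos 0 (by norm_num) X (by linarith))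
      linarith
    have h2 : M - ε ∈ P := by
      rw [hP]
      exact ⟨h1, X, hX, upper h hX h1 hcon⟩
    have h3 := csInf_le hPb h2
    rw [← hM] at h3
    linarith
  have F4 : ∀ ε : ℝ, 0 < ε → ∀ X : ℝ, 1 / 5 ≤ X → ∃ r, r < 6 ∧ ∃ L, X ≤ L ∧ L ≤ 5 * X ∧
      F r L 0 < (m + ε) * (v r * L ^ (-θ)) := by
    intro ε hε X hX
    by_contra hcon
    push Not at hcon
    have h1 : 0 ≤ m + ε := by linarith
    have h2 : m + ε ∈ Q := by
      rw [hQ]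
      exact ⟨h1, X, hX, lower h hX h1 hcon⟩
    have h3 := le_csSup hQb h2
    rw [← hm] at h3
    linarith
  have hv3 := h.vpos 3 (by norm_num)
  -- mixing
  have key : ∀ δ : ℝ, 0 < δ → M * Real.exp (-(3 * δ)) ≤ m := by
    intro δ hδ
    obtain ⟨a, b, s, hs, hsδ, hexp⟩ := irr δ hδ
    obtain ⟨J, hJ⟩ := exists_nat_ge (63 / |s| + 1)
    obtain ⟨C, hC⟩ : ∃ C : ℝ, C = 3 ^ (J * a) * 12 ^ (J * b) := ⟨_, rfl⟩
    obtain ⟨R, hR⟩ : ∃ R : ℝ, R = 2 * 3 ^ (J * a) := ⟨_, rfl⟩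
    have h3Ja : (1 : ℝ) ≤ 3 ^ (J * a) := one_le_pow₀ (by norm_num)
    have h3Jb : (1 : ℝ) ≤ 3 ^ (J * b) := one_le_pow₀ (by norm_num)
    have h12Jb : (1 : ℝ) ≤ 12 ^ (J * b) := one_le_pow₀ (by norm_num)
    have hR1 : 1 ≤ R := by rw [hR]; linarith
    have hC0 : 0 < C := by rw [hC]; positivity
    suffices hs1 : ∀ ε : ℝ, 0 < ε → M * Real.exp (-(3 * δ)) ≤ m + 32 * C * b₀ * R ^ 3 / v 3 * ε by
      refine le_of_forall_pos_le_add fun η hη => ?_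
      have hK : 0 < 32 * C * b₀ * R ^ 3 / v 3 := by positivity
      have h1 := hs1 (η / (32 * C * b₀ * R ^ 3 / v 3)) (by positivity)
      have h2 : 32 * C * b₀ * R ^ 3 / v 3 * (η / (32 * C * b₀ * R ^ 3 / v 3)) = η := by
        field_simp
      rw [h2] at h1
      exact h1
    intro ε hε
    obtain ⟨X₁, hX₁, hf1⟩ := F1 ε hε
    obtain ⟨X₂, hX₂, hf2⟩ := F3 ε hε
    obtain ⟨X, hX⟩ : ∃ X : ℝ, X = max X₁ X₂ := ⟨_, rfl⟩
    have hX1 : X₁ ≤ X := by rw [hX]; exact le_max_left _ _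
    have hX2 : X₂ ≤ X := by rw [hX]; exact le_max_right _ _
    obtain ⟨Z, hZ⟩ : ∃ Z : ℝ, Z = 5 * X := ⟨_, rfl⟩
    have hZ1 : 1 ≤ Z := by rw [hZ]; linarith
    have hZ0 : 0 < Z := by linarith
    have Hp : Harm Z (fun r L => (-1) * F r L 0 + (M + ε) * (v r * L ^ (-θ))) := by
      refine harm_of h hZ1 (-1) (M + ε) fun r hr L hL => ?_
      have := hf1 r hr L (by rw [hZ] at hL; linarith)
      linarith
    have Hm : Harm Z (fun r L => 1 * F r L 0 + (-(m - ε)) * (v r * L ^ (-θ))) := by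
      refine harm_of h hZ1 1 (-(m - ε)) fun r hr L hL => ?_
      have := hf2 r hr L (by rw [hZ] at hL; linarith)
      linarith
    obtain ⟨Y, hY⟩ : ∃ Y : ℝ, Y = 32 * Z * 3 ^ (J * b) := ⟨_, rfl⟩
    have hZY : 32 * Z ≤ Y := by
      rw [hY]
      exact le_mul_of_one_le_right (by positivity) h3Jb
    have hY0 : 0 < Y := by linarith
    obtain ⟨r₁, hr₁, L₁, hL₁Y, hL₁Y', hg1⟩ := F2 ε hε Y (by linarith)
    obtain ⟨r₂, hr₂, L₂, hL₂Y, hL₂Y', hg2⟩ := F4 ε hε Y (by linarith)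
    obtain ⟨k₁, hk₁, hk₁', he1⟩ := enter r₁ hr₁
    obtain ⟨k₂, hk₂, hk₂', he2⟩ := enter r₂ hr₂
    have hL₁0 : 0 < L₁ := by linarith
    have hL₂0 : 0 < L₂ := by linarith
    have hkL1 : 0 < k₁ * L₁ := by positivity
    have hkL2 : 0 < k₂ * L₂ := by positivity
    have hlo : ∀ k L : ℝ, 4 / 25 ≤ k → Y ≤ L → 4 / 25 * Y ≤ k * L := fun k L hk hL =>
      mul_le_mul hk hL hY0.le (by linarith)
    have hup : ∀ k L : ℝ, 0 < k → k ≤ 2 → 0 < L → L ≤ 5 * Y → k * L ≤ 10 * Y := by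
      intro k L hk0 hk hL0 hL
      calc k * L ≤ 2 * (5 * Y) := mul_le_mul hk hL hL0.le (by norm_num)
        _ = 10 * Y := by ring
    have hq1 := hlo k₁ L₁ hk₁ hL₁Y
    have hq2 := hlo k₂ L₂ hk₂ hL₂Y
    have hq3 := hup k₁ L₁ (by linarith) hk₁' hL₁0 hL₁Y'
    have hq4 := hup k₂ L₂ (by linarith) hk₂' hL₂0 hL₂Y'
    have hlog : ∀ x y : ℝ, 0 < x → 0 < y → 4 / 25 * Y ≤ y → x ≤ 10 * Y → Real.log x - Real.log y ≤ 63 := by
      intro x y hx hy h1 h2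
      rw [← Real.log_div hx.ne' hy.ne']
      have h3 := Real.log_le_sub_one_of_pos (div_pos hx hy)
      have h4 : x / y ≤ 62.5 := by
        rw [div_le_iff₀ hy]
        linarith
      linarith
    have ht : |Real.log (k₁ * L₁) - Real.log (k₂ * L₂)| ≤ 63 := by
      rw [abs_le]
      refine ⟨?_, hlog _ _ hkL1 hkL2 hq2 hq3⟩
      have := hlog _ _ hkL2 hkL1 hq1 hq4
      linarith
    obtain ⟨j₁, j₂, hj₁, hj₂, hal1, hal2⟩ := align hs hsδ hJ ht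
    obtain ⟨La, hLa⟩ : ∃ La : ℝ, La = 3 ^ (j₂ * a) * (12 / 25) ^ (j₂ * b) * (k₂ * L₂) := ⟨_, rfl⟩
    obtain ⟨Lb, hLb⟩ : ∃ Lb : ℝ, Lb = 3 ^ (j₁ * a) * (12 / 25) ^ (j₁ * b) * (k₁ * L₁) := ⟨_, rfl⟩
    have hkap : ∀ j : ℕ, Real.exp (j * s) = 3 ^ (j * a) * (12 / 25) ^ (j * b) := by
      intro j
      rw [Real.exp_nat_mul, hexp, mul_pow, ← pow_mul, ← pow_mul, mul_comm a j, mul_comm b j]
    have hLa' : La = Real.exp (Real.log (k₂ * L₂) + j₂ * s) := by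
      rw [Real.exp_add, Real.exp_log hkL2, hkap, hLa]
      ring
    have hLb' : Lb = Real.exp (Real.log (k₁ * L₁) + j₁ * s) := by
      rw [Real.exp_add, Real.exp_log hkL1, hkap, hLb]
      ring
    have hLa0 : 0 < La := by rw [hLa']; exact Real.exp_pos _
    have hLb0 : 0 < Lb := by rw [hLb']; exact Real.exp_pos _
    have hab : La ≤ Lb := by
      rw [hLa', hLb']
      exact Real.exp_le_exp.2 hal1
    have hba : Lb ≤ Real.exp δ * La := by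
      rw [hLa', hLb', ← Real.exp_add]
      refine Real.exp_le_exp.2 ?_
      linarith
    -- sizes
    have hfac : ∀ j : ℕ, j ≤ J → (3 : ℝ) ^ (j * a) * (12 / 25) ^ (j * b) ≤ 3 ^ (J * a) := by
      intro j hj
      have h1 : (3 : ℝ) ^ (j * a) ≤ 3 ^ (J * a) := pow_le_pow_right₀ (by norm_num) (Nat.mul_le_mul_right a hj)
      have h2 : (12 / 25 : ℝ) ^ (j * b) ≤ 1 := pow_le_one₀ (by norm_num) (by norm_num)
      calc (3 : ℝ) ^ (j * a) * (12 / 25) ^ (j * b) ≤ 3 ^ (J * a) * 1 := mul_le_mul h1 h2 (by positivity) (by positivity)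
        _ = _ := mul_one _
    have hLbR : Lb ≤ R * L₁ := by
      rw [hLb, hR]
      calc 3 ^ (j₁ * a) * (12 / 25) ^ (j₁ * b) * (k₁ * L₁) ≤ 3 ^ (J * a) * (2 * L₁) :=
            mul_le_mul (hfac j₁ hj₁) (mul_le_mul_of_nonneg_right hk₁' hL₁0.le) hkL1.le (by positivity)
        _ = _ := by ring
    have hLaR : La ≤ R * L₂ := by
      rw [hLa, hR]
      calc 3 ^ (j₂ * a) * (12 / 25) ^ (j₂ * b) * (k₂ * L₂) ≤ 3 ^ (J * a) * (2 * L₂) :=
            mul_le_mul (hfac j₂ hj₂) (mul_le_mul_of_nonneg_right hk₂' hL₂0.le) hkL2.le (by positivity)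
        _ = _ := by ring
    have hA0 : 0 < La ^ (-θ) := Real.rpow_pos_of_pos hLa0 _
    have hp1 : L₁ ^ (-θ) ≤ R ^ 3 * La ^ (-θ) := pw hθ0.le hθ3 hR1 hL₁0 hLa0 (hab.trans hLbR)
    have hp2 : L₂ ^ (-θ) ≤ R ^ 3 * La ^ (-θ) := pw hθ0.le hθ3 hR1 hL₂0 hLa0 hLaR
    have hCj : ∀ j : ℕ, j ≤ J → (3 : ℝ) ^ (j * a) * 12 ^ (j * b) ≤ C := by
      intro j hj
      rw [hC]
      exact mul_le_mul (pow_le_pow_right₀ (by norm_num) (Nat.mul_le_mul_right a hj))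
        (pow_le_pow_right₀ (by norm_num) (Nat.mul_le_mul_right b hj)) (by positivity) (by positivity)
    have hsz : ∀ j : ℕ, j ≤ J → ∀ x : ℝ, 4 / 25 * Y ≤ x → 5 * Z * 3 ^ (j * b) < x := by
      intro j hj x hx
      have h1 : (3 : ℝ) ^ (j * b) ≤ 3 ^ (J * b) := pow_le_pow_right₀ (by norm_num) (Nat.mul_le_mul_right b hj)
      have h2 : Z * 3 ^ (j * b) ≤ Z * 3 ^ (J * b) := mul_le_mul_of_nonneg_left h1 hZ0.le
      have h3 : 0 < Z * 3 ^ (J * b) := by positivity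
      rw [hY] at hx
      nlinarith
    -- transfer
    have htr : ∀ (hh : ℕ → ℝ → ℝ), Harm Z hh → ∀ (r : ℕ) (L k : ℝ) (j : ℕ), r < 6 → Y ≤ L → j ≤ J →
        4 / 25 * Y ≤ k * L → hh 3 (k * L) ≤ 8 * hh r L → L ^ (-θ) ≤ R ^ 3 * La ^ (-θ) →
        hh r L ≤ 2 * ε * (v r * L ^ (-θ)) →
        hh 3 (3 ^ (j * a) * (12 / 25) ^ (j * b) * (k * L)) ≤ 16 * C * b₀ * R ^ 3 * ε * La ^ (-θ) := by
      intro hh H r L k j hr hL hj hkL h1 h2 h3
      have h4 := it H hZ0 (j * a) (j * b) (hsz j hj _ hkL)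
      have h5 : 0 ≤ hh r L := H.nn r hr L (by linarith)
      have h6 : (3 : ℝ) ^ (j * a) * 12 ^ (j * b) * hh 3 (k * L) ≤ C * (8 * hh r L) := by
        have h7 : (3 : ℝ) ^ (j * a) * 12 ^ (j * b) * hh 3 (k * L) ≤ 3 ^ (j * a) * 12 ^ (j * b) * (8 * hh r L) :=
          mul_le_mul_of_nonneg_left h1 (by positivity)
        exact h7.trans (mul_le_mul_of_nonneg_right (hCj j hj) (by positivity))
      have hL0 : 0 < L := by linarith
      have h8 : v r * L ^ (-θ) ≤ b₀ * (R ^ 3 * La ^ (-θ)) :=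
        mul_le_mul (hvb r hr) h2 (Real.rpow_nonneg hL0.le _) hb₀.le
      have h9 : hh r L ≤ 2 * ε * (b₀ * (R ^ 3 * La ^ (-θ))) := h3.trans (mul_le_mul_of_nonneg_left h8 (by positivity))
      calc hh 3 (3 ^ (j * a) * (12 / 25) ^ (j * b) * (k * L)) ≤ 3 ^ (j * a) * 12 ^ (j * b) * hh 3 (k * L) := h4
        _ ≤ C * (8 * hh r L) := h6
        _ ≤ C * (8 * (2 * ε * (b₀ * (R ^ 3 * La ^ (-θ))))) := by gcongr
        _ = _ := by ring
    have hT1 := htr _ Hp r₁ L₁ k₁ j₁ hr₁ hL₁Y hj₁ hq1 (he1 Z _ Hp hZ0 L₁ (by linarith)) hp1 (by linarith)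
    have hT2 := htr _ Hm r₂ L₂ k₂ j₂ hr₂ hL₂Y hj₂ hq2 (he2 Z _ Hm hZ0 L₂ (by linarith)) hp2 (by linarith)
    rw [← hLb] at hT1
    rw [← hLa] at hT2
    have hmono : F 3 Lb 0 ≤ F 3 La 0 := F_anti 3 hab le_rfl
    -- comparison of the powers
    have hLbp : Real.exp (-(3 * δ)) * La ^ (-θ) ≤ Lb ^ (-θ) := by
      have h1 : (Real.exp δ * La) ^ (-θ) ≤ Lb ^ (-θ) := Real.rpow_le_rpow_of_nonpos hLb0 hba (by linarith)
      rw [Real.mul_rpow (Real.exp_pos δ).le hLa0.le, ← Real.exp_mul] at h1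
      refine le_trans (mul_le_mul_of_nonneg_right (Real.exp_le_exp.2 ?_) hA0.le) h1
      nlinarith
    have hfin : M * (v 3 * (Real.exp (-(3 * δ)) * La ^ (-θ))) ≤ m * (v 3 * La ^ (-θ)) + 32 * C * b₀ * R ^ 3 * ε * La ^ (-θ) := by
      have h1 : M * (v 3 * (Real.exp (-(3 * δ)) * La ^ (-θ))) ≤ M * (v 3 * Lb ^ (-θ)) :=
        mul_le_mul_of_nonneg_left (mul_le_mul_of_nonneg_left hLbp hv3.le) hM0
      have h2 : 0 < v 3 * Lb ^ (-θ) := hVpos 3 (by norm_num) Lb hLb0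
      have h3 : 0 < v 3 * La ^ (-θ) := hVpos 3 (by norm_num) La hLa0
      have h4 : 0 ≤ ε * (v 3 * Lb ^ (-θ)) := by positivity
      have h5 : 0 ≤ ε * (v 3 * La ^ (-θ)) := by positivity
      nlinarith
    have hgoal : (M * Real.exp (-(3 * δ))) * (v 3 * La ^ (-θ)) ≤ (m + 32 * C * b₀ * R ^ 3 / v 3 * ε) * (v 3 * La ^ (-θ)) := by
      have h1 : (M * Real.exp (-(3 * δ))) * (v 3 * La ^ (-θ)) = M * (v 3 * (Real.exp (-(3 * δ)) * La ^ (-θ))) := by ring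
      have h2 : (m + 32 * C * b₀ * R ^ 3 / v 3 * ε) * (v 3 * La ^ (-θ)) =
          m * (v 3 * La ^ (-θ)) + 32 * C * b₀ * R ^ 3 * ε * La ^ (-θ) := by
        field_simp
      rw [h1, h2]
      exact hfin
    exact le_of_mul_le_mul_right hgoal (hVpos 3 (by norm_num) La hLa0)
  have hMm : M ≤ m := by
    by_contra hcon
    push Not at hcon
    have hM1 : 0 < M := hmpos.trans hcon
    have h1 : 0 < Real.log (M / m) := Real.log_pos (by rw [one_lt_div hmpos]; exact hcon)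
    have h2 := key (Real.log (M / m) / 6) (by positivity)
    have h3 : Real.exp (-Real.log (M / m)) < Real.exp (-(3 * (Real.log (M / m) / 6))) := by
      refine Real.exp_lt_exp.2 ?_
      linarith
    have h4 : Real.exp (-Real.log (M / m)) = m / M := by
      rw [Real.exp_neg, Real.exp_log (by positivity), inv_div]
    rw [h4] at h3
    have h5 : m < M * Real.exp (-(3 * (Real.log (M / m) / 6))) := by
      have := mul_lt_mul_of_pos_left h3 hM1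
      rwa [mul_div_cancel₀ m hM1.ne'] at this
    linarith
  refine ⟨m, hmpos, fun r hr => ?_⟩
  rw [Metric.tendsto_atTop]
  intro η hη
  have hvr := h.vpos r hr
  obtain ⟨ε, hε⟩ : ∃ ε : ℝ, ε = η / (2 * v r) := ⟨_, rfl⟩
  have hε0 : 0 < ε := by rw [hε]; positivity
  have hεv : ε * v r = η / 2 := by rw [hε]; field_simp
  obtain ⟨X₁, hX₁, hf1⟩ := F1 ε hε0
  obtain ⟨X₂, hX₂, hf2⟩ := F3 ε hε0
  refine ⟨max X₁ X₂, fun L hL => ?_⟩
  have hL1 : X₁ ≤ L := (le_max_left _ _).trans hL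
  have hL2 : X₂ ≤ L := (le_max_right _ _).trans hL
  have hL0 : 0 < L := by linarith
  have hLθ : 0 < L ^ θ := Real.rpow_pos_of_pos hL0 _
  have hcan : ∀ x : ℝ, x * (v r * L ^ (-θ)) * L ^ θ = x * v r := by
    intro x
    have : L ^ (-θ) * L ^ θ = 1 := by rw [← Real.rpow_add hL0, neg_add_cancel, Real.rpow_zero]
    calc x * (v r * L ^ (-θ)) * L ^ θ = x * v r * (L ^ (-θ) * L ^ θ) := by ring
      _ = _ := by rw [this, mul_one]
  have h1 := mul_le_mul_of_nonneg_right (hf1 r hr L hL1) hLθ.le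
  have h2 := mul_le_mul_of_nonneg_right (hf2 r hr L hL2) hLθ.le
  rw [hcan] at h1 h2
  rw [Real.dist_eq, abs_lt]
  have h3 : M * v r ≤ m * v r := mul_le_mul_of_nonneg_right hMm hvr.le
  constructor
  · nlinarith
  · nlinarith

end Pool.Agent.H82.EV
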