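import Pool.Agent.H12.EV.Model

/-! # [H82 EV RENA] Windows and harmonic functions for the model probabilities (barrier 0) -/

namespace Pool.Agent.H82.EV

open Pool.Agent.H12.EV Filter

/-! ## the operator -/

lemma Op_le0 {f g : ℕ → ℝ → ℝ → ℝ} {r : ℕ} {L : ℝ} (hL : 0 ≤ L)
    (h : ∀ s, s < 6 → ∀ L', L / 5 ≤ L' → f s L' 0 ≤ g s L' 0) : Op f r L 0 ≤ Op g r L 0 := by
  have h2 : L / 5 ≤ 2 * L := by linarith
  have h3 : L / 5 ≤ 3 * L := by linarith
  unfold Op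
  simp only [mul_zero, zero_div]
  split_ifs
  · linarith [h 0 (by norm_num) _ h2, h 3 (by norm_num) _ h2]
  · exact h 0 (by norm_num) _ le_rfl
  · linarith [h 1 (by norm_num) _ h2, h 4 (by norm_num) _ h2]
  · linarith [h 1 (by norm_num) _ h3, h 3 (by norm_num) _ h3, h 5 (by norm_num) _ h3]
  · linarith [h 2 (by norm_num) _ h2, h 5 (by norm_num) _ h2]
  · exact h 2 (by norm_num) _ le_rfl

lemma Op_lin (f g : ℕ → ℝ → ℝ → ℝ) (a b : ℝ) (r : ℕ) (L R : ℝ) :
    Op (fun r L R => a * f r L R - b * g r L R) r L R = a * Op f r L R - b * Op g r L R := by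
  unfold Op
  split_ifs <;> ring

lemma Op_smul (f : ℕ → ℝ → ℝ → ℝ) (a : ℝ) (r : ℕ) (L R : ℝ) :
    Op (fun r L R => a * f r L R) r L R = a * Op f r L R := by
  unfold Op
  split_ifs <;> ring

/-! ## windows -/

lemma upper {θ : ℝ} {v : ℕ → ℝ} (h : Par θ v) {X M : ℝ} (hX : 1 / 5 ≤ X) (hM : 0 ≤ M)
    (hw : ∀ r, r < 6 → ∀ L, X ≤ L → L ≤ 5 * X → F r L 0 ≤ M * (v r * L ^ (-θ))) :
    ∀ r, r < 6 → ∀ L, X ≤ L → F r L 0 ≤ M * (v r * L ^ (-θ)) := by
  have key : ∀ i r : ℕ, r < 6 → ∀ L, X ≤ L → Phi i r L 0 ≤ M * (v r * L ^ (-θ)) := by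
    intro i
    induction i with
    | zero =>
      intro r hr L hL
      rcases le_or_gt L (5 * X) with h1 | h1
      · exact (Phi_le_F 0 r L 0).trans (hw r hr L hL h1)
      · have h2 : Phi 0 r L 0 = 0 := by
          unfold Phi
          rw [if_neg (by norm_num), if_neg (by linarith)]
        rw [h2]
        have := h.vpos r hr
        have h3 : 0 ≤ L ^ (-θ) := Real.rpow_nonneg (by linarith) _
        positivity
    | succ i ih =>
      intro r hr L hL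
      rcases le_or_gt L (5 * X) with h1 | h1
      · exact (Phi_le_F (i + 1) r L 0).trans (hw r hr L hL h1)
      · have h2 : Phi (i + 1) r L 0 = Op (Phi i) r L 0 := by
          have : Phi (i + 1) r L 0 = if (1 : ℝ) < 0 then 0 else if L ≤ 1 then 1 else Op (Phi i) r L 0 := rfl
          rw [this, if_neg (by norm_num), if_neg (by linarith)]
        rw [h2]
        have h3 : Op (Phi i) r L 0 ≤ Op (fun r L _ => M * (v r * L ^ (-θ))) r L 0 :=
          Op_le0 (by linarith) (fun s hs L' hL' => ih s hs L' (by linarith))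
        refine h3.trans_eq ?_
        rw [Op_smul (fun r L _ => v r * L ^ (-θ)) M, Op_v h hr (by linarith)]
  intro r hr L hL
  exact F_le_of (fun i => key i r hr L hL)

lemma lower {θ : ℝ} {v : ℕ → ℝ} (h : Par θ v) {X m : ℝ} (hX : 1 / 5 ≤ X) (hm : 0 ≤ m)
    (hw : ∀ r, r < 6 → ∀ L, X ≤ L → L ≤ 5 * X → m * (v r * L ^ (-θ)) ≤ F r L 0) :
    ∀ r, r < 6 → ∀ L, X ≤ L → m * (v r * L ^ (-θ)) ≤ F r L 0 := by
  have hX0 : 0 < X := by linarith
  obtain ⟨C, hC0, hC⟩ : ∃ C : ℝ, 0 ≤ C ∧ ∀ r, r < 6 → ∀ L, X ≤ L → m * (v r * L ^ (-θ)) ≤ C * (w r / L) := by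
    obtain ⟨b, hb⟩ : ∃ b : ℝ, b = v 0 + v 1 + v 2 + v 3 + v 4 + v 5 := ⟨_, rfl⟩
    have hv : ∀ r, r < 6 → v r ≤ b := by
      intro r hr
      have h0 := h.vpos 0 (by norm_num)
      have h1 := h.vpos 1 (by norm_num)
      have h2 := h.vpos 2 (by norm_num)
      have h3 := h.vpos 3 (by norm_num)
      have h4 := h.vpos 4 (by norm_num)
      have h5 := h.vpos 5 (by norm_num)
      rw [hb]
      interval_cases r <;> linarith
    have hb0 : 0 < b := (h.vpos 0 (by norm_num)).trans_le (hv 0 (by norm_num))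
    have hXp : 0 < X ^ (1 - θ) := Real.rpow_pos_of_pos hX0 _
    refine ⟨m * (b * X ^ (1 - θ)) * (10000 / 687), by positivity, ?_⟩
    intro r hr L hL
    have hL0 : 0 < L := by linarith
    have e1 : L ^ (-θ) = L ^ (1 - θ) / L := by
      rw [Real.rpow_sub hL0, Real.rpow_one, Real.rpow_neg hL0.le]
      field_simp
    have e2 : L ^ (1 - θ) ≤ X ^ (1 - θ) := Real.rpow_le_rpow_of_nonpos hX0 hL (by linarith [h.hθ1])
    have e3 : 0 ≤ L ^ (1 - θ) := Real.rpow_nonneg hL0.le _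
    have e4 : 1 ≤ 10000 / 687 * w r := by
      have := w_ge r
      linarith
    rw [e1]
    have e5 : m * (v r * (L ^ (1 - θ) / L)) = (m * (v r * L ^ (1 - θ))) / L := by ring
    have e6 : m * (b * X ^ (1 - θ)) * (10000 / 687) * (w r / L) = (m * (b * X ^ (1 - θ)) * (10000 / 687 * w r)) / L := by ring
    rw [e5, e6]
    refine div_le_div_of_nonneg_right ?_ hL0.le
    have e7 : v r * L ^ (1 - θ) ≤ b * X ^ (1 - θ) := mul_le_mul (hv r hr) e2 e3 hb0.le
    calc m * (v r * L ^ (1 - θ)) ≤ m * (b * X ^ (1 - θ)) := mul_le_mul_of_nonneg_left e7 hm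
      _ ≤ m * (b * X ^ (1 - θ)) * (10000 / 687 * w r) := le_mul_of_one_le_right (by positivity) e4
  have key : ∀ n r : ℕ, r < 6 → ∀ L, X ≤ L →
      m * (v r * L ^ (-θ)) - C * (19 / 20) ^ n * (w r / L) ≤ F r L 0 := by
    intro n
    induction n with
    | zero =>
      intro r hr L hL
      have h1 := hC r hr L hL
      have h2 := F_nonneg r L 0
      rw [pow_zero, mul_one]
      linarith
    | succ n ih =>
      intro r hr L hL
      have hL0 : 0 < L := by linarith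
      have hw0 := w_pos r
      rcases le_or_gt L (5 * X) with h1 | h1
      · have h2 := hw r hr L hL h1
        have h3 : 0 ≤ C * (19 / 20) ^ (n + 1) * (w r / L) := by positivity
        linarith
      · rw [F_step (by linarith) (by norm_num)]
        have h3 : Op (fun r L _ => m * (v r * L ^ (-θ)) - (C * (19 / 20) ^ n) * (w r / L)) r L 0 ≤ Op F r L 0 :=
          Op_le0 hL0.le (fun s hs L' hL' => ih s hs L' (by linarith))
        refine le_trans ?_ h3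
        have h4 := Op_lin (fun r L _ => v r * L ^ (-θ)) (fun r L _ => w r / L) m (C * (19 / 20) ^ n) r L 0
        rw [h4, Op_v h hr hL0]
        have h5 : Op (fun r L _ => w r / L) r L 0 ≤ 19 / 20 * (w r / L) := Op_w hr hL0
        have h6 : C * (19 / 20) ^ n * Op (fun r L _ => w r / L) r L 0 ≤ C * (19 / 20) ^ n * (19 / 20 * (w r / L)) :=
          mul_le_mul_of_nonneg_left h5 (by positivity)
        have h7 : C * (19 / 20) ^ (n + 1) * (w r / L) = C * (19 / 20) ^ n * (19 / 20 * (w r / L)) := by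
          rw [pow_succ]
          ring
        rw [h7]
        linarith
  intro r hr L hL
  have hlim : Tendsto (fun n : ℕ => m * (v r * L ^ (-θ)) - C * (19 / 20 : ℝ) ^ n * (w r / L)) atTop
      (nhds (m * (v r * L ^ (-θ)) - C * 0 * (w r / L))) := by
    have h1 : Tendsto (fun n : ℕ => (19 / 20 : ℝ) ^ n) atTop (nhds 0) :=
      tendsto_pow_atTop_nhds_zero_of_lt_one (by norm_num) (by norm_num)
    exact tendsto_const_nhds.sub ((h1.const_mul C).mul_const _)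
  rw [mul_zero, zero_mul, sub_zero] at hlim
  exact le_of_tendsto hlim (Eventually.of_forall (fun n => key n r hr L hL))

/-! ## nonnegative harmonic functions -/

structure Harm (Z : ℝ) (h : ℕ → ℝ → ℝ) : Prop where
  nn : ∀ r, r < 6 → ∀ L, Z / 5 ≤ L → 0 ≤ h r L
  e0 : ∀ L, Z < L → h 0 L = (h 0 (2 * L) + h 3 (2 * L)) / 2
  e1 : ∀ L, Z < L → h 1 L = h 0 (L / 5)
  e2 : ∀ L, Z < L → h 2 L = (h 1 (2 * L) + h 4 (2 * L)) / 2
  e3 : ∀ L, Z < L → h 3 L = (h 1 (3 * L) + h 3 (3 * L) + h 5 (3 * L)) / 3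
  e4 : ∀ L, Z < L → h 4 L = (h 2 (2 * L) + h 5 (2 * L)) / 2
  e5 : ∀ L, Z < L → h 5 L = h 2 (L / 5)

lemma s03 {Z : ℝ} {h : ℕ → ℝ → ℝ} (H : Harm Z h) (hZ : 0 < Z) {L : ℝ} (hL : Z < L) :
    h 3 (2 * L) ≤ 2 * h 0 L := by
  have h1 := H.e0 L hL
  have h2 := H.nn 0 (by norm_num) (2 * L) (by linarith)
  linarith

lemma s21 {Z : ℝ} {h : ℕ → ℝ → ℝ} (H : Harm Z h) (hZ : 0 < Z) {L : ℝ} (hL : Z < L) :
    h 1 (2 * L) ≤ 2 * h 2 L := by
  have h1 := H.e2 L hL
  have h2 := H.nn 4 (by norm_num) (2 * L) (by linarith)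
  linarith

lemma s42 {Z : ℝ} {h : ℕ → ℝ → ℝ} (H : Harm Z h) (hZ : 0 < Z) {L : ℝ} (hL : Z < L) :
    h 2 (2 * L) ≤ 2 * h 4 L := by
  have h1 := H.e4 L hL
  have h2 := H.nn 5 (by norm_num) (2 * L) (by linarith)
  linarith

lemma s33 {Z : ℝ} {h : ℕ → ℝ → ℝ} (H : Harm Z h) (hZ : 0 < Z) {L : ℝ} (hL : Z < L) :
    h 3 (3 * L) ≤ 3 * h 3 L := by
  have h1 := H.e3 L hL
  have h2 := H.nn 1 (by norm_num) (3 * L) (by linarith)
  have h3 := H.nn 5 (by norm_num) (3 * L) (by linarith)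
  linarith

lemma s35 {Z : ℝ} {h : ℕ → ℝ → ℝ} (H : Harm Z h) (hZ : 0 < Z) {L : ℝ} (hL : Z < L) :
    h 5 (3 * L) ≤ 3 * h 3 L := by
  have h1 := H.e3 L hL
  have h2 := H.nn 1 (by norm_num) (3 * L) (by linarith)
  have h3 := H.nn 3 (by norm_num) (3 * L) (by linarith)
  linarith

lemma s23 {Z : ℝ} {h : ℕ → ℝ → ℝ} (H : Harm Z h) (hZ : 0 < Z) {L : ℝ} (hL : 5 / 2 * Z < L) :
    h 3 (4 / 5 * L) ≤ 4 * h 2 L := by
  have h1 := s21 H hZ (show Z < L by linarith)
  have h2 := H.e1 (2 * L) (by linarith)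
  have h3 := s03 H hZ (show Z < 2 * L / 5 by linarith)
  have e : 2 * (2 * L / 5) = 4 / 5 * L := by ring
  rw [e] at h3
  linarith

lemma s12 {Z : ℝ} {h : ℕ → ℝ → ℝ} (H : Harm Z h) (hZ : 0 < Z) {L : ℝ} (hL : 5 * Z < L) :
    h 3 (12 / 25 * L) ≤ 12 * h 3 L := by
  have h1 := s35 H hZ (show Z < L by linarith)
  have h2 := H.e5 (3 * L) (by linarith)
  have h3 := s23 H hZ (show 5 / 2 * Z < 3 * L / 5 by linarith)
  have e : 4 / 5 * (3 * L / 5) = 12 / 25 * L := by ring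
  rw [e] at h3
  linarith

lemma it3 {Z : ℝ} {h : ℕ → ℝ → ℝ} (H : Harm Z h) (hZ : 0 < Z) {L : ℝ} (hL : Z < L) (a : ℕ) :
    h 3 (3 ^ a * L) ≤ 3 ^ a * h 3 L := by
  induction a with
  | zero => rw [pow_zero, one_mul, one_mul]
  | succ a ih =>
    have h1 : (1 : ℝ) ≤ 3 ^ a := one_le_pow₀ (by norm_num)
    have h2 : Z < 3 ^ a * L := by nlinarith
    have h3 := s33 H hZ h2
    have e : 3 * (3 ^ a * L) = 3 ^ (a + 1) * L := by ring
    rw [e] at h3
    calc h 3 (3 ^ (a + 1) * L) ≤ 3 * h 3 (3 ^ a * L) := h3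
      _ ≤ 3 * (3 ^ a * h 3 L) := by linarith
      _ = _ := by ring

lemma it12 {Z : ℝ} {h : ℕ → ℝ → ℝ} (H : Harm Z h) (hZ : 0 < Z) {L : ℝ} (b : ℕ) (hL : 5 * Z * 3 ^ b < L) :
    h 3 ((12 / 25) ^ b * L) ≤ 12 ^ b * h 3 L := by
  induction b with
  | zero => rw [pow_zero, pow_zero, one_mul, one_mul]
  | succ b ih =>
    have h0 : (0 : ℝ) < (12 / 25) ^ b := by positivity
    have h1 : 5 * Z * 3 ^ b < L := by
      have : (0 : ℝ) < 5 * Z * 3 ^ b := by positivity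
      rw [pow_succ] at hL
      linarith
    have h2 : 5 * Z < (12 / 25) ^ b * L := by
      have h3 : (12 / 25 : ℝ) ^ b * (5 * Z * 3 ^ (b + 1)) < (12 / 25) ^ b * L := mul_lt_mul_of_pos_left hL h0
      have h4 : (12 / 25 : ℝ) ^ b * (5 * Z * 3 ^ (b + 1)) = 5 * Z * (3 * (36 / 25) ^ b) := by
        have : (36 / 25 : ℝ) ^ b = (12 / 25) ^ b * 3 ^ b := by rw [← mul_pow]; norm_num
        rw [this, pow_succ]
        ring
      have h5 : (1 : ℝ) ≤ (36 / 25) ^ b := one_le_pow₀ (by norm_num)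
      rw [h4] at h3
      nlinarith
    have h3 := s12 H hZ h2
    have e : 12 / 25 * ((12 / 25) ^ b * L) = (12 / 25) ^ (b + 1) * L := by ring
    rw [e] at h3
    have ih' := ih h1
    calc h 3 ((12 / 25) ^ (b + 1) * L) ≤ 12 * h 3 ((12 / 25) ^ b * L) := h3
      _ ≤ 12 * (12 ^ b * h 3 L) := by linarith
      _ = _ := by ring

lemma it {Z : ℝ} {h : ℕ → ℝ → ℝ} (H : Harm Z h) (hZ : 0 < Z) {L : ℝ} (a b : ℕ) (hL : 5 * Z * 3 ^ b < L) :
    h 3 (3 ^ a * (12 / 25) ^ b * L) ≤ 3 ^ a * 12 ^ b * h 3 L := by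
  have h1 : (1 : ℝ) ≤ 3 ^ a := one_le_pow₀ (by norm_num)
  have h1b : (1 : ℝ) ≤ 3 ^ b := one_le_pow₀ (by norm_num)
  have hL0 : Z < L := by nlinarith
  have h2 : 5 * Z * 3 ^ b < 3 ^ a * L := by nlinarith
  have h3 := it12 H hZ b h2
  have h4 := it3 H hZ hL0 a
  have e : 3 ^ a * (12 / 25) ^ b * L = (12 / 25) ^ b * (3 ^ a * L) := by ring
  rw [e]
  have h5 : (12 : ℝ) ^ b * h 3 (3 ^ a * L) ≤ 12 ^ b * (3 ^ a * h 3 L) := mul_le_mul_of_nonneg_left h4 (by positivity)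
  calc h 3 ((12 / 25) ^ b * (3 ^ a * L)) ≤ 12 ^ b * h 3 (3 ^ a * L) := h3
    _ ≤ 12 ^ b * (3 ^ a * h 3 L) := h5
    _ = _ := by ring

lemma enter (r : ℕ) (hr : r < 6) : ∃ k : ℝ, 4 / 25 ≤ k ∧ k ≤ 2 ∧ ∀ (Z : ℝ) (h : ℕ → ℝ → ℝ), Harm Z h → 0 < Z →
    ∀ L, 25 * Z < L → h 3 (k * L) ≤ 8 * h r L := by
  interval_cases r
  · refine ⟨2, by norm_num, le_rfl, fun Z h H hZ L hL => ?_⟩
    have h1 := s03 H hZ (show Z < L by linarith)
    have h2 := H.nn 0 (by norm_num) L (by linarith)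
    linarith
  · refine ⟨2 / 5, by norm_num, by norm_num, fun Z h H hZ L hL => ?_⟩
    have h1 := H.e1 L (by linarith)
    have h2 := s03 H hZ (show Z < L / 5 by linarith)
    have h3 := H.nn 1 (by norm_num) L (by linarith)
    have e : 2 * (L / 5) = 2 / 5 * L := by ring
    rw [e] at h2
    linarith
  · refine ⟨4 / 5, by norm_num, by norm_num, fun Z h H hZ L hL => ?_⟩
    have h1 := s23 H hZ (show 5 / 2 * Z < L by linarith)
    have h3 := H.nn 2 (by norm_num) L (by linarith)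
    linarith
  · refine ⟨1, by norm_num, by norm_num, fun Z h H hZ L hL => ?_⟩
    have h3 := H.nn 3 (by norm_num) L (by linarith)
    rw [one_mul]
    linarith
  · refine ⟨8 / 5, by norm_num, by norm_num, fun Z h H hZ L hL => ?_⟩
    have h1 := s42 H hZ (show Z < L by linarith)
    have h2 := s23 H hZ (show 5 / 2 * Z < 2 * L by linarith)
    have e : 4 / 5 * (2 * L) = 8 / 5 * L := by ring
    rw [e] at h2
    linarith
  · refine ⟨4 / 25, le_rfl, by norm_num, fun Z h H hZ L hL => ?_⟩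
    have h1 := H.e5 L (by linarith)
    have h2 := s23 H hZ (show 5 / 2 * Z < L / 5 by linarith)
    have h3 := H.nn 5 (by norm_num) L (by linarith)
    have e : 4 / 5 * (L / 5) = 4 / 25 * L := by ring
    rw [e] at h2
    linarith

end Pool.Agent.H82.EV
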